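import Pool.Agent.Helper90.PI.Final

/-!
`MP_901209_mp`: the conjectured value `n_min(t) = 3 t² + 3 t + 1` of the minimal block length of
a permutation-invariant qubit code correcting `t` errors is wrong. There is such a code with
`t = 4` on `59` qubits, while `3 · 4² + 3 · 4 + 1 = 61`.

The code is invariant under time reversal (`|c₁⟩ = Θ|c₀⟩`) and `|c₀⟩` is supported on Dicke states
whose index is divisible by `3`. Its existence is proved with a Newton-type certificate whose
finitely many integer inequalities are evaluated by the kernel.
-/

set_option autoImplicit false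

namespace Pool.Agent.Results.MP_901209_mp.FiftyNineQubits

open Pool.Agent.Helper90.PI

/-- The minimal block length of a permutation-invariant qubit code correcting `t` errors. -/
noncomputable def nmin (t : ℕ) : ℕ := sInf {n : ℕ | HasPICode n t}

/-- Some permutation-invariant qubit code of block length `59` corrects `4` errors; hence it is
not true that `n_min(t) = 3 t² + 3 t + 1` for every `t ≥ 1` (the value for `t = 4` would
be `61`). -/
theorem result :
    HasPICode 59 4 ∧ ¬ ∀ t : ℕ, 1 ≤ t → nmin t = 3 * t ^ 2 + 3 * t + 1 := by
  refine ⟨hasPICode_59_4, fun h => ?_⟩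
  have h1 : nmin 4 ≤ 59 := Nat.sInf_le hasPICode_59_4
  have h2 := h 4 (by norm_num)
  omega

end Pool.Agent.Results.MP_901209_mp.FiftyNineQubits
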